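import Mathlib

set_option autoImplicit false

open Finset

namespace Pool.Agent.Results.MP_0c20fd_an.NonSmooth

/-- The 2-summing norm: the least constant `C ≥ 0` in the defining inequality. -/
noncomputable def pi2 {X : Type} [NormedAddCommGroup X] [NormedSpace ℝ X] (T : X →L[ℝ] X) : ℝ :=
  sInf {C : ℝ | 0 ≤ C ∧ ∀ (m : ℕ) (x : Fin m → X), Real.sqrt (∑ i, ‖T (x i)‖ ^ 2) ≤
    C * ⨆ f : {f : StrongDual ℝ X // ‖f‖ ≤ 1}, Real.sqrt (∑ i, |f.1 (x i)| ^ 2)}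

noncomputable def wk {m : ℕ} (x : Fin m → ℝ × ℝ) : ℝ :=
  ⨆ f : {f : StrongDual ℝ (ℝ × ℝ) // ‖f‖ ≤ 1}, Real.sqrt (∑ i, |f.1 (x i)| ^ 2)

theorem le_wk {m : ℕ} (x : Fin m → ℝ × ℝ) (f : StrongDual ℝ (ℝ × ℝ)) (hf : ‖f‖ ≤ 1) :
    Real.sqrt (∑ i, |f (x i)| ^ 2) ≤ wk x := by
  refine le_ciSup (f := fun f : {f : StrongDual ℝ (ℝ × ℝ) // ‖f‖ ≤ 1} =>
    Real.sqrt (∑ i, |f.1 (x i)| ^ 2)) ⟨Real.sqrt (∑ i, ‖x i‖ ^ 2), ?_⟩ ⟨f, hf⟩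
  rintro _ ⟨g, rfl⟩
  refine Real.sqrt_le_sqrt (sum_le_sum (fun i _ => pow_le_pow_left₀ (abs_nonneg _) ?_ 2))
  exact (g.1.le_opNorm _).trans (mul_le_of_le_one_left (norm_nonneg _) g.2)

theorem wk_nonneg {m : ℕ} (x : Fin m → ℝ × ℝ) : 0 ≤ wk x :=
  (Real.sqrt_nonneg _).trans (le_wk x 0 (by simp))

theorem upper (S : (ℝ × ℝ) →L[ℝ] (ℝ × ℝ)) (C : ℝ) (hC : 0 ≤ C)
    (h : ∀ x : ℝ × ℝ, ‖S x‖ ^ 2 ≤ C ^ 2 / 2 * (x.1 ^ 2 + x.2 ^ 2)) (m : ℕ) (x : Fin m → ℝ × ℝ) :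
    Real.sqrt (∑ i, ‖S (x i)‖ ^ 2) ≤ C * wk x := by
  have h1 := le_wk x (ContinuousLinearMap.fst ℝ ℝ ℝ) (ContinuousLinearMap.norm_fst_le _ _ _)
  have h2 := le_wk x (ContinuousLinearMap.snd ℝ ℝ ℝ) (ContinuousLinearMap.norm_snd_le _ _ _)
  have h0 := wk_nonneg x
  rw [Real.sqrt_le_left h0] at h1 h2
  rw [Real.sqrt_le_left (by positivity)]
  simp only [sq_abs, ContinuousLinearMap.coe_fst', ContinuousLinearMap.coe_snd'] at h1 h2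
  refine (sum_le_sum (fun i _ => h (x i))).trans ?_
  rw [← mul_sum, sum_add_distrib]
  nlinarith [sq_nonneg C]

theorem lower (S : (ℝ × ℝ) →L[ℝ] (ℝ × ℝ)) : ‖S (1, 1)‖ ≤ pi2 S ∧ ‖S (1, -1)‖ ≤ pi2 S := by
  have key : ∀ y : ℝ × ℝ, ‖y‖ ≤ 1 → ‖S y‖ ≤ pi2 S := fun y hy => by
    refine le_csInf ⟨2 * ‖S‖, by positivity, upper S _ (by positivity) (fun x => ?_)⟩ ?_
    · have h1 := pow_le_pow_left₀ (norm_nonneg _) (S.le_opNorm x) 2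
      have h2 : ‖x‖ ^ 2 ≤ x.1 ^ 2 + x.2 ^ 2 := by
        rw [Prod.norm_def]
        rcases max_choice ‖x.1‖ ‖x.2‖ with h | h <;> rw [h, Real.norm_eq_abs, sq_abs] <;>
          nlinarith [sq_nonneg x.1, sq_nonneg x.2]
      have h3 := mul_le_mul_of_nonneg_left h2 (sq_nonneg ‖S‖)
      nlinarith [mul_nonneg (sq_nonneg ‖S‖) (add_nonneg (sq_nonneg x.1) (sq_nonneg x.2))]
    · rintro C ⟨hC, h⟩
      have h1 := h 1 (fun _ => y)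
      simp only [univ_unique, sum_singleton, Real.sqrt_sq (norm_nonneg _),
        Real.sqrt_sq (abs_nonneg _)] at h1
      refine h1.trans (mul_le_of_le_one_right hC (Real.iSup_le (fun f => ?_) zero_le_one))
      exact (f.1.le_opNorm y).trans (mul_le_one₀ f.2 (norm_nonneg _) hy)
  exact ⟨key _ (by simp [Prod.norm_def]), key _ (by simp [Prod.norm_def])⟩

noncomputable def T0 : (ℝ × ℝ) →L[ℝ] (ℝ × ℝ) :=
  (ContinuousLinearMap.fst ℝ ℝ ℝ + ContinuousLinearMap.snd ℝ ℝ ℝ).prod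
    (ContinuousLinearMap.fst ℝ ℝ ℝ - ContinuousLinearMap.snd ℝ ℝ ℝ)

theorem T0_apply (x : ℝ × ℝ) : T0 x = (x.1 + x.2, x.1 - x.2) := rfl

theorem pi2_T0 : pi2 T0 = 2 := by
  apply le_antisymm
  · refine csInf_le ⟨0, fun C hC => hC.1⟩ ⟨by norm_num, upper T0 2 (by norm_num) (fun x => ?_)⟩
    rw [T0_apply, Prod.norm_def]
    rcases max_choice ‖x.1 + x.2‖ ‖x.1 - x.2‖ with h | h <;> rw [h, Real.norm_eq_abs, sq_abs] <;>
      nlinarith [sq_nonneg (x.1 + x.2), sq_nonneg (x.1 - x.2)]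
  · have := (lower T0).1
    rw [T0_apply] at this
    norm_num [Prod.norm_def] at this
    exact this

theorem result : ∃ (X : Type) (_ : NormedAddCommGroup X) (_ : NormedSpace ℝ X)
    (_ : FiniteDimensional ℝ X) (T : X →L[ℝ] X), Function.Bijective T ∧ 0 < pi2 T ∧
    ∃ φ ψ : (X →L[ℝ] X) →ₗ[ℝ] ℝ, φ ≠ ψ ∧ (∀ S, |φ S| ≤ pi2 S) ∧ (∀ S, |ψ S| ≤ pi2 S) ∧
      φ T = pi2 T ∧ ψ T = pi2 T := by
  refine ⟨ℝ × ℝ, inferInstance, inferInstance, inferInstance, T0, ⟨fun x y h => ?_, fun y => ?_⟩,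
    by rw [pi2_T0]; norm_num,
    ⟨⟨fun S => (S (1, 1)).1, fun _ _ => rfl⟩, fun _ _ => rfl⟩,
    ⟨⟨fun S => (S (1, -1)).2, fun _ _ => rfl⟩, fun _ _ => rfl⟩, fun h => ?_,
    fun S => (norm_fst_le (S (1, 1))).trans (lower S).1,
    fun S => (norm_snd_le (S (1, -1))).trans (lower S).2, ?_, ?_⟩
  · simp only [T0_apply, Prod.mk.injEq] at h
    ext <;> linarith [h.1, h.2]
  · exact ⟨((y.1 + y.2) / 2, (y.1 - y.2) / 2), by rw [T0_apply]; ext <;> simp <;> ring⟩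
  · have := LinearMap.congr_fun h (ContinuousLinearMap.id ℝ (ℝ × ℝ))
    norm_num at this
  · rw [pi2_T0]; show (T0 (1, 1)).1 = 2; rw [T0_apply]; norm_num
  · rw [pi2_T0]; show (T0 (1, -1)).2 = 2; rw [T0_apply]; norm_num

end Pool.Agent.Results.MP_0c20fd_an.NonSmooth
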